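import Mathlib
import Pool.Agent.H6.Spec2

namespace Pool.Agent.Results.MP_90e10c_an.FiniteComplete

open MeasureTheory Filter Topology Finset Pool.Agent.H6.Spec

/-- The exponential `e_l(x) = exp(-2 π i l x)`. -/
noncomputable def ex (l x : ℝ) : ℂ := Complex.exp (-2 * Real.pi * Complex.I * l * x)

/-- `(μ, Λ)` is a spectral pair: the exponentials `e_l`, `l ∈ Λ`, form an orthonormal basis
of `L²(μ)`. -/
def Spectral (μ : Measure ℝ) (Λ : Set ℝ) : Prop :=
  ∃ v : Λ → Lp ℂ 2 μ, (∀ l : Λ, v l =ᵐ[μ] ex l) ∧ Orthonormal ℂ v ∧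
    (Submodule.span ℂ (Set.range v)).topologicalClosure = ⊤

theorem ex_eq (l x : ℝ) : ex l x = e (l * x) := by
  unfold ex e; congr 1; push_cast; ring

noncomputable def mu : Measure ℝ := P.map (T 0)

instance : IsProbabilityMeasure mu :=
  Measure.isProbabilityMeasure_map (T_cont 0).measurable.aemeasurable

theorem inner_eq {a b : ℝ} {u v : Lp ℂ 2 mu} (hu : u =ᵐ[mu] ex a) (hv : v =ᵐ[mu] ex b) :
    inner ℂ u v = II 0 (b - a) := by
  rw [L2.inner_def]
  have : (fun x => inner ℂ (u x) (v x)) =ᵐ[mu] fun x => e ((b - a) * x) := by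
    filter_upwards [hu, hv] with x h1 h2
    rw [h1, h2, ex_eq, ex_eq, RCLike.inner_apply, e_conj, ← e_add]
    congr 1; ring
  rw [integral_congr_ae this]
  exact integral_map (T_cont 0).measurable.aemeasurable
    (Continuous.aestronglyMeasurable (e_cont.comp (continuous_const.mul continuous_id)))

def LL : Set ℝ := (fun n : ℕ => (n : ℝ)) '' ⋃ m, Lam m

theorem spec : Spectral mu LL := by
  have hm : ∀ l : ℝ, MemLp (ex l) 2 mu := fun l =>
    MemLp.of_bound (Continuous.aestronglyMeasurable (by unfold ex; fun_prop)) 1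
      (Eventually.of_forall fun x => by rw [ex_eq, e_norm])
  refine ⟨fun l => (hm l).toLp _, fun l => MemLp.coeFn_toLp _, ?_, ?_⟩
  · classical
    rw [orthonormal_iff_ite]
    intro a b
    rw [inner_eq (MemLp.coeFn_toLp _) (MemLp.coeFn_toLp _)]
    split_ifs with h
    · subst h; simp [II, e_zero]
    · obtain ⟨_, x, hx, rfl⟩ := a
      obtain ⟨_, y, hy, rfl⟩ := b
      obtain ⟨m, hx⟩ := Set.mem_iUnion.1 hx
      obtain ⟨n, hy⟩ := Set.mem_iUnion.1 hy
      obtain ⟨j, -, r, hr, hr2⟩ := Lam_diff (Lam_mono (le_max_right m n) hy)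
        (Lam_mono (le_max_left m n) hx) (fun hxy => h (by subst hxy; rfl))
      refine II_zero_iff.2 ⟨j, r, ?_, hr2⟩
      simp only
      exact_mod_cast hr
  · rw [Submodule.topologicalClosure_eq_top_iff, Submodule.eq_bot_iff]
    intro f hf
    have hfi : Integrable f mu := (Lp.memLp f).integrable (by norm_num)
    have hT := (T_cont 0).measurable.aemeasurable (μ := P)
    have hcomp : ∀ ξ : ℝ, ∫ x, e (ξ * x) * (starRingEnd ℂ) (f x) ∂mu =
        ∫ ω, e (ξ * T 0 ω) * (starRingEnd ℂ) (f (T 0 ω)) ∂P := fun ξ =>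
      integral_map hT ((Continuous.aestronglyMeasurable
        (e_cont.comp (continuous_const.mul continuous_id))).mul
        (Complex.continuous_conj.comp_aestronglyMeasurable hfi.1))
    have hfc : Integrable (fun x => (starRingEnd ℂ) (f x)) mu :=
      Complex.conjCLE.toContinuousLinearMap.integrable_comp hfi
    have h1 := zero_of_fourier mu hfc fun ξ => by
      rw [hcomp]
      refine complete (G := fun ω => (starRingEnd ℂ) (f (T 0 ω)))
        ((integrable_map_measure hfc.1 hT).1 hfc) (fun m l hl => ?_) ξ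
      rw [← hcomp]
      have h2 := (Submodule.mem_orthogonal' _ _).1 hf ((hm l).toLp _)
        (Submodule.subset_span ⟨⟨l, l, Set.mem_iUnion.2 ⟨m, hl⟩, rfl⟩, rfl⟩)
      rw [L2.inner_def] at h2
      rw [← h2]
      refine integral_congr_ae ?_
      filter_upwards [MemLp.coeFn_toLp (hm l)] with x hx
      rw [hx, ex_eq, RCLike.inner_apply]
    refine Lp.eq_zero_iff_ae_eq_zero.2 ?_
    filter_upwards [h1] with x hx
    simpa using hx

theorem A_mem (k : ℕ) : (A k : ℝ) ∈ LL :=
  ⟨A k, Set.mem_iUnion.2 ⟨k + 1, 0, Lam_mono (Nat.zero_le k) rfl, 1, by omega, by simp⟩, rfl⟩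

theorem compl_sub {t : ℝ} (ht : Spectral mu ((fun l => t * l) '' LL)) :
    t ∈ ({-1, 0, 1} : Set ℝ) := by
  by_contra hn
  simp only [Set.mem_insert_iff, Set.mem_singleton_iff, not_or] at hn
  obtain ⟨v, hv, ho, -⟩ := ht
  have h0 : (0:ℝ) ∈ LL := ⟨0, Set.mem_iUnion.2 ⟨0, rfl⟩, by simp⟩
  have key : ∀ k, ∃ (j : ℕ) (m : ℤ), t * A k = m * A j ∧ ¬ ((j + 2 : ℕ) : ℤ) ∣ m := by
    intro k
    have hA : (0:ℝ) < A k := by exact_mod_cast A_pos k
    have h1 := ho.2 (i := ⟨t * 0, 0, h0, rfl⟩) (j := ⟨t * A k, A k, A_mem k, rfl⟩) (by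
      intro h
      have := congrArg Subtype.val h
      simp only [mul_zero] at this
      exact mul_ne_zero hn.2.1 hA.ne' this.symm)
    simp only at h1
    rw [inner_eq (hv _) (hv _)] at h1
    simpa using II_zero_iff.1 h1
  obtain ⟨j, m, h1, -⟩ := key 0
  obtain ⟨z, rfl⟩ : ∃ z : ℤ, t = z := ⟨m * A j, by simpa [A] using h1⟩
  have hz : 2 ≤ z.natAbs := by
    have a1 : z ≠ -1 := by rintro rfl; simp at hn
    have a2 : z ≠ 0 := by rintro rfl; simp at hn
    have a3 : z ≠ 1 := by rintro rfl; simp at hn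
    omega
  obtain ⟨k, hk⟩ : ∃ k, z.natAbs = k + 2 := ⟨z.natAbs - 2, by omega⟩
  obtain ⟨j, m, h1, h2⟩ := key k
  have h3 : z * A k = m * A j := by exact_mod_cast h1
  have h4 : (k + 2) * A k = m.natAbs * A j := by
    have := congrArg Int.natAbs h3
    simpa [Int.natAbs_mul, hk] using this
  rcases le_or_gt j k with hjk | hjk
  · apply h2
    rw [Int.natCast_dvd]
    have : (j + 2) * A j ∣ (k + 2) * A k := by
      rcases hjk.eq_or_lt with rfl | h
      · rfl
      · exact (B_dvd h).mul_left _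
    rw [h4] at this
    exact Nat.dvd_of_mul_dvd_mul_right (A_pos j) this
  · have h5 := A_succ_ge k
    have h6 := A_add (k + 1) (j - (k + 1))
    rw [show j - (k + 1) + (k + 1) = j by omega] at h6
    have h7 := two_le k
    have h8 : 1 ≤ 2 ^ (j - (k + 1)) := Nat.one_le_two_pow
    rcases Nat.eq_zero_or_pos m.natAbs with h | h
    · rw [h] at h4; omega
    · nlinarith

theorem X_vals (n : ℕ) : ∃ s : Finset ℝ, s.card ≤ (n + 1).factorial ∧ ∀ ω, X n ω ∈ s := by
  classical
  induction n with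
  | zero => exact ⟨{0}, by simp, fun ω => by simp [X]⟩
  | succ n ih =>
    obtain ⟨s, hs, hs2⟩ := ih
    refine ⟨(s ×ˢ range (n + 2)).image fun z => z.1 + (z.2 : ℝ) / (((n + 2) * A n : ℕ) : ℝ),
      card_image_le.trans ?_, fun ω => mem_image.2 ⟨(X n ω, (ω n).val),
        mem_product.2 ⟨hs2 ω, mem_range.2 (ZMod.val_lt (ω n))⟩, ?_⟩⟩
    · rw [card_product, card_range, Nat.factorial_succ (n + 1), mul_comm]
      exact Nat.mul_le_mul le_rfl hs
    · rw [X, X, sum_range_succ, tm]

theorem vol_zero : volume (Set.range (T 0)) = 0 := by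
  have h1 : ∀ m : ℕ, volume (Set.range (T 0)) ≤ ENNReal.ofReal (2 * (1 / ((m : ℝ) + 1))) := by
    intro m
    obtain ⟨s, hs, hs2⟩ := X_vals (m + 1)
    have h2 : Set.range (T 0) ⊆ ⋃ x ∈ s, Set.Icc x (x + 2 / A (m + 1)) := by
      rintro _ ⟨ω, rfl⟩
      refine Set.mem_biUnion (hs2 ω) ?_
      rw [T_zero (m + 1)]
      exact ⟨by linarith [T_nonneg (m + 1) ω], by linarith [T_le (m + 1) ω]⟩
    refine (measure_mono h2).trans ((measure_biUnion_finset_le _ _).trans ?_)
    simp only [Real.volume_Icc, add_sub_cancel_left, sum_const, nsmul_eq_mul]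
    rw [← ENNReal.ofReal_natCast, ← ENNReal.ofReal_mul (Nat.cast_nonneg _)]
    apply ENNReal.ofReal_le_ofReal
    set b : ℝ := (((m + 2) * A m : ℕ) : ℝ) with hb'
    have hb1 : (m : ℝ) + 1 ≤ b := by
      have := A_pos m
      rw [hb']
      exact_mod_cast (by nlinarith : m + 1 ≤ (m + 2) * A m)
    have hb2 : 1 ≤ b := by have : (0:ℝ) ≤ m := Nat.cast_nonneg m; linarith
    have hA : (A (m + 1) : ℝ) = b ^ 3 := by rw [hb']; simp only [A]; push_cast; ring
    have h5 : (s.card : ℝ) ≤ b := by rw [hb']; exact_mod_cast hs.trans (fac_le m)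
    rw [hA]
    calc _ ≤ b * (2 / b ^ 3) := by gcongr
      _ = 2 * (1 / b ^ 2) := by field_simp
      _ ≤ 2 * (1 / b) := by gcongr; exact le_self_pow₀ hb2 (by norm_num)
      _ ≤ _ := by gcongr
  have h3 := ENNReal.tendsto_ofReal (tendsto_one_div_add_atTop_nhds_zero_nat.const_mul (2:ℝ))
  rw [mul_zero, ENNReal.ofReal_zero] at h3
  exact le_zero_iff.1 (ge_of_tendsto' h3 h1)

theorem no_atom (x : ℝ) : mu {x} = 0 := by
  rw [mu, Measure.map_apply (T_cont 0).measurable (measurableSet_singleton x)]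
  set S := T 0 ⁻¹' {x}
  have hS : MeasurableSet S := (T_cont 0).measurable (measurableSet_singleton x)
  have h1 : ∀ n : ℕ, ((n + 2 : ℕ) : ENNReal) * P S ≤ 1 := by
    intro n
    have h2 : Pairwise (Function.onFun Disjoint
        fun s : ZMod (n + 2) => (fun ω : Om => Pi.single n s + ω) ⁻¹' S) := by
      intro s s' hs
      refine Set.disjoint_left.2 fun ω h1 h2 => hs ?_
      have h3 : T 0 (Pi.single n s + ω) = T 0 (Pi.single n s' + ω) :=
        (show _ = x from h1).trans (show _ = x from h2).symm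
      have h4 : ∀ u : ZMod (n + 2), T 0 (Pi.single n u + ω) =
          X n ω + (tm n (Pi.single n u + ω) + T (n + 1) ω) := fun u => by
        rw [T_zero n, T_succ n, X_shift le_rfl, T_shift (Nat.lt_succ_self n)]
      rw [h4, h4, add_right_inj, add_left_inj] at h3
      simp only [tm, Pi.add_apply, Pi.single_eq_same] at h3
      have := two_le n
      rw [div_left_inj' (by positivity), Nat.cast_inj] at h3
      exact add_right_cancel (ZMod.val_injective _ h3)
    have h3 := measure_iUnion (μ := P) h2 fun s => measurable_const_add _ hS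
    simp only [measure_preimage_add, tsum_fintype, sum_const, card_univ, ZMod.card,
      nsmul_eq_mul] at h3
    rw [← h3]
    exact prob_le_one
  by_contra h
  obtain ⟨n, hn⟩ := ENNReal.exists_nat_mul_gt h (ENNReal.one_ne_top)
  refine absurd ((mul_le_mul_left ?_ _).trans (h1 n)) (not_le.2 hn)
  exact_mod_cast (by omega : n ≤ n + 2)

theorem result : ∃ (μ : Measure ℝ) (Λ : Set ℝ), IsProbabilityMeasure μ ∧
    (∃ K : Set ℝ, IsCompact K ∧ μ Kᶜ = 0) ∧ Λ.Countable ∧
    μ.MutuallySingular volume ∧ (∀ x, μ {x} = 0) ∧ Spectral μ Λ ∧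
    {t : ℝ | Spectral μ ((fun l => t * l) '' Λ)}.Finite := by
  have hK : IsCompact (Set.range (T 0)) := isCompact_range (T_cont 0)
  have h1 : mu (Set.range (T 0))ᶜ = 0 := by
    rw [mu, Measure.map_apply (T_cont 0).measurable hK.measurableSet.compl]
    simp
  refine ⟨mu, LL, inferInstance, ⟨_, hK, h1⟩, (Set.to_countable _).image _,
    ⟨_, hK.measurableSet.compl, h1, by rw [compl_compl]; exact vol_zero⟩, no_atom, spec, ?_⟩
  exact (Set.toFinite ({-1, 0, 1} : Set ℝ)).subset fun t ht => compl_sub ht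

end Pool.Agent.Results.MP_90e10c_an.FiniteComplete
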